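import Pool.Agent.Helper82.SG.St

/-!
Module HF of SG: the local scale.
-/

set_option autoImplicit false

namespace Pool.Agent.Helper45.SG

open Finset Real MeasureTheory Pool.Agent.Helper77.Steiner Pool.Agent.Helper82.SG
open Pool.Agent.Helper18.GP (nlen NConn)
open scoped ENNReal

theorem hHF : StHF := by
  classical
  intro E _ A hA
  have hne : A.offDiag.Nonempty := by
    obtain ⟨a, ha, b, hb, hab⟩ := Finset.one_lt_card.1 (by omega : 1 < A.card)
    exact ⟨(a, b), Finset.mem_offDiag.2 ⟨ha, hb, hab⟩⟩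
  obtain ⟨h, hh⟩ : ∃ h : E → ℝ, h = fun v => A.offDiag.inf' hne
      (fun p : E × E => max (dist v p.1) (dist v p.2)) := ⟨_, rfl⟩
  have hle : ∀ (v : E) (p : E × E), p ∈ A.offDiag → h v ≤ max (dist v p.1) (dist v p.2) := by
    intro v p hp
    rw [hh]
    exact Finset.inf'_le (fun p : E × E => max (dist v p.1) (dist v p.2)) hp
  have hex : ∀ v : E, ∃ p ∈ A.offDiag, h v = max (dist v p.1) (dist v p.2) := by
    intro v
    obtain ⟨p, hp, he⟩ := Finset.exists_mem_eq_inf' hne
      (fun p : E × E => max (dist v p.1) (dist v p.2))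
    exact ⟨p, hp, by rw [hh]; exact he⟩
  refine ⟨h, ⟨?_, ?_, ?_, ?_⟩⟩
  · intro v w
    obtain ⟨p, hp, he⟩ := hex w
    refine (hle v p hp).trans ?_
    rw [he]
    apply max_le
    · have h1 := dist_triangle v w p.1
      have h2 := le_max_left (dist w p.1) (dist w p.2)
      linarith
    · have h1 := dist_triangle v w p.2
      have h2 := le_max_right (dist w p.1) (dist w p.2)
      linarith
  · intro v
    obtain ⟨p, hp, he⟩ := hex v
    refine ⟨p.1, (Finset.mem_offDiag.1 hp).1, ?_⟩
    rw [he]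
    exact le_max_left _ _
  · intro a ha b hb hab
    have h1 := hle a (a, b) (Finset.mem_offDiag.2 ⟨ha, hb, hab⟩)
    rw [dist_self, max_eq_right dist_nonneg] at h1
    exact h1
  · obtain ⟨q, hq, he⟩ := Finset.exists_mem_eq_inf' hne (fun p : E × E => dist p.1 p.2)
    refine ⟨dist q.1 q.2 / 2, half_pos (dist_pos.2 (Finset.mem_offDiag.1 hq).2.2), fun v => ?_⟩
    obtain ⟨p, hp, hpe⟩ := hex v
    have h1 := Finset.inf'_le (fun p : E × E => dist p.1 p.2) hp
    rw [he] at h1
    have h1' : dist q.1 q.2 ≤ dist p.1 p.2 := h1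
    have h2 := dist_triangle_left p.1 p.2 v
    have h3 := le_max_left (dist v p.1) (dist v p.2)
    have h4 := le_max_right (dist v p.1) (dist v p.2)
    rw [hpe]
    linarith

end Pool.Agent.Helper45.SG
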